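import Mathlib

set_option autoImplicit false

/-!
# A recursive total order with undecidable Diophantine problem for its plactic monoid

The order is the sum over `e = 0, 1, 2, …` of blocks `{left e < right e}` or
`{left e < middle e < right e}`, where the middle point is present iff the machine number `e` halts;
the code of the middle point contains the exact halting time, so the order is recursive. The six
Knuth relations for letters `a < X < b`, read as equations for an unknown `X`, are solvable if there
is a letter strictly between the constants `a` and `b`. If there is none then the letter `a` can be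
sent to the successor function on the naturals, `b` to the (truncated) predecessor function, all
other letters to the identity function, and the six equations have no solution even among all
functions from the naturals to the naturals.
-/

namespace Pool.Agent.Results.MP_a663df_lc.RecursiveOrder

open Nat.Partrec (Code)
open Nat.Partrec.Code

/-- `(S, lt)` is a recursive total order: `S` is a decidable set of natural numbers (the codes of the
elements of the order) and `lt` is a decidable relation which is a strict total order on `S`. -/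
structure IsRecursiveOrder (S : ℕ → Prop) (lt : ℕ → ℕ → Prop) : Prop where
  carrier_decidable : ComputablePred S
  lt_decidable : ComputablePred fun p : ℕ × ℕ => lt p.1 p.2
  irrefl : ∀ a, S a → ¬ lt a a
  trans : ∀ a b c, S a → S b → S c → lt a b → lt b c → lt a c
  total : ∀ a b, S a → S b → a ≠ b → lt a b ∨ lt b a

/-- The Knuth relations `z x y = x z y` for `x ≤ y < z` and `y x z = y z x` for `x < y ≤ z`. -/
inductive Knuth (S : ℕ → Prop) (lt : ℕ → ℕ → Prop) :
    FreeMonoid {a // S a} → FreeMonoid {a // S a} → Prop
  | one (x y z : {a // S a}) : (x = y ∨ lt x y) → lt y z →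
      Knuth S lt (.of z * .of x * .of y) (.of x * .of z * .of y)
  | two (x y z : {a // S a}) : lt x y → (y = z ∨ lt y z) →
      Knuth S lt (.of y * .of x * .of z) (.of y * .of z * .of x)

/-- The plactic monoid on the totally ordered set `(S, lt)`. -/
abbrev Plactic (S : ℕ → Prop) (lt : ℕ → ℕ → Prop) := PresentedMonoid (Knuth S lt)

/-- A word over variables (`Sum.inl i` is the variable `x_i`) and constants (`Sum.inr a` is the
generator with code `a`). -/
abbrev Word := List (ℕ ⊕ ℕ)

/-- All constants of the word are elements of `S`. -/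
def Valid (S : ℕ → Prop) (w : Word) : Prop := ∀ a, Sum.inr a ∈ w → S a

open Classical in
/-- The value of a word in the plactic monoid under an assignment of the variables. -/
noncomputable def value (S : ℕ → Prop) (lt : ℕ → ℕ → Prop) (v : ℕ → Plactic S lt) (w : Word) :
    Plactic S lt :=
  (w.map (Sum.elim v fun a => if h : S a then PresentedMonoid.of (Knuth S lt) ⟨a, h⟩ else 1)).prod

/-- The system of equations has a solution in the plactic monoid. -/
def Solvable (S : ℕ → Prop) (lt : ℕ → ℕ → Prop) (sys : List (Word × Word)) : Prop :=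
  ∃ v : ℕ → Plactic S lt, ∀ e ∈ sys, value S lt v e.1 = value S lt v e.2

/-! ### The six equations -/

/-- The six Knuth relations for letters `a < x_0 < b`, with `x_0` unknown. -/
def six (a b : ℕ) : List (Word × Word) :=
  [([.inl 0, .inr a, .inr a], [.inr a, .inl 0, .inr a]),
   ([.inr b, .inr a, .inl 0], [.inr a, .inr b, .inl 0]),
   ([.inr b, .inl 0, .inl 0], [.inl 0, .inr b, .inl 0]),
   ([.inl 0, .inr a, .inl 0], [.inl 0, .inl 0, .inr a]),
   ([.inl 0, .inr a, .inr b], [.inl 0, .inr b, .inr a]),
   ([.inr b, .inl 0, .inr b], [.inr b, .inr b, .inl 0])]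

section Six

variable {S : ℕ → Prop} {lt : ℕ → ℕ → Prop}

theorem six_valid {a b : ℕ} (ha : S a) (hb : S b) :
    ∀ e ∈ six a b, Valid S e.1 ∧ Valid S e.2 := by
  intro e he
  unfold six at he
  simp only [List.mem_cons, List.not_mem_nil, or_false] at he
  rcases he with rfl | rfl | rfl | rfl | rfl | rfl <;>
  · constructor <;>
    · intro c hc
      simp only [List.mem_cons, Sum.inr.injEq, reduceCtorEq, List.not_mem_nil, or_false,
        false_or] at hc
      rcases hc with rfl | rfl <;> assumption

theorem value_nil (v : ℕ → Plactic S lt) : value S lt v [] = 1 := rfl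

theorem value_inl (v : ℕ → Plactic S lt) (i : ℕ) (w : Word) :
    value S lt v (.inl i :: w) = v i * value S lt v w := by
  simp [value]

theorem value_inr (v : ℕ → Plactic S lt) {a : ℕ} (h : S a) (w : Word) :
    value S lt v (.inr a :: w) = PresentedMonoid.of (Knuth S lt) ⟨a, h⟩ * value S lt v w := by
  simp [value, h]

theorem rel_one (x y z : {a // S a}) (h1 : x = y ∨ lt x y) (h2 : lt y z) :
    PresentedMonoid.of (Knuth S lt) z * (PresentedMonoid.of (Knuth S lt) x *
      PresentedMonoid.of (Knuth S lt) y) =
    PresentedMonoid.of (Knuth S lt) x * (PresentedMonoid.of (Knuth S lt) z *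
      PresentedMonoid.of (Knuth S lt) y) := by
  have h := PresentedMonoid.mk_eq_mk_of_rel (Knuth.one x y z h1 h2)
  simp only [map_mul] at h
  rw [← mul_assoc, ← mul_assoc]
  exact h

theorem rel_two (x y z : {a // S a}) (h1 : lt x y) (h2 : y = z ∨ lt y z) :
    PresentedMonoid.of (Knuth S lt) y * (PresentedMonoid.of (Knuth S lt) x *
      PresentedMonoid.of (Knuth S lt) z) =
    PresentedMonoid.of (Knuth S lt) y * (PresentedMonoid.of (Knuth S lt) z *
      PresentedMonoid.of (Knuth S lt) x) := by
  have h := PresentedMonoid.mk_eq_mk_of_rel (Knuth.two x y z h1 h2)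
  simp only [map_mul] at h
  rw [← mul_assoc, ← mul_assoc]
  exact h

/-- A letter between `a` and `b` solves the six equations. -/
theorem six_of_between {a b c : ℕ} (ha : S a) (hb : S b) (hc : S c) (h1 : lt a c)
    (h2 : lt c b) : Solvable S lt (six a b) := by
  refine ⟨fun _ => PresentedMonoid.of (Knuth S lt) ⟨c, hc⟩, ?_⟩
  intro e he
  unfold six at he
  simp only [List.mem_cons, List.not_mem_nil, or_false] at he
  rcases he with rfl | rfl | rfl | rfl | rfl | rfl
  · simp only [value_inl, value_inr _ ha, value_nil, mul_one]
    exact rel_one ⟨a, ha⟩ ⟨a, ha⟩ ⟨c, hc⟩ (.inl rfl) h1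
  · simp only [value_inl, value_inr _ ha, value_inr _ hb, value_nil, mul_one]
    exact rel_one ⟨a, ha⟩ ⟨c, hc⟩ ⟨b, hb⟩ (.inr h1) h2
  · simp only [value_inl, value_inr _ hb, value_nil, mul_one]
    exact rel_one ⟨c, hc⟩ ⟨c, hc⟩ ⟨b, hb⟩ (.inl rfl) h2
  · simp only [value_inl, value_inr _ ha, value_nil, mul_one]
    exact rel_two ⟨a, ha⟩ ⟨c, hc⟩ ⟨c, hc⟩ h1 (.inl rfl)
  · simp only [value_inl, value_inr _ ha, value_inr _ hb, value_nil, mul_one]
    exact rel_two ⟨a, ha⟩ ⟨c, hc⟩ ⟨b, hb⟩ h1 (.inr h2)
  · simp only [value_inl, value_inr _ hb, value_nil, mul_one]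
    exact rel_two ⟨c, hc⟩ ⟨b, hb⟩ ⟨b, hb⟩ h2 (.inl rfl)

/-- The successor function. -/
def sc : Function.End ℕ := Nat.succ

/-- The predecessor function. -/
def pd : Function.End ℕ := Nat.pred

/-- The six equations have no solution among the functions on the naturals, if `a` is the successor
function and `b` the predecessor function. -/
theorem no_function (X : Function.End ℕ)
    (e1 : X * (sc * sc) = sc * (X * sc))
    (e2 : pd * (sc * X) = sc * (pd * X))
    (e4 : X * (sc * X) = X * (X * sc))
    (e5 : X * (sc * pd) = X * (pd * sc))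
    (e6 : pd * (X * pd) = pd * (pd * X)) : False := by
  have g1 : X 1 = X 0 := congrFun e5 0
  have g2 : (X 0).pred = (X 1).pred.pred := congrFun e6 1
  have g3 : X 0 = (X 0).pred + 1 := congrFun e2 0
  have g5 : X 2 = X 1 + 1 := congrFun e1 0
  have g6 : X (X 0 + 1) = X (X 1) := congrFun e4 0
  simp only [Nat.pred_eq_sub_one] at g2 g3
  generalize h : X 0 = x at g1 g2 g3 g5 g6
  have hx : x = 1 := by
    rw [g1] at g2
    omega
  subst hx
  rw [g1] at g5 g6
  rw [g1] at g6
  change X 2 = 1 at g6
  rw [g6] at g5
  omega

open Classical in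
/-- If there is no letter between `a` and `b`, the six equations are not solvable. -/
theorem between_of_six (hO : IsRecursiveOrder S lt) {a b : ℕ} (ha : S a) (hb : S b) (hab : lt a b)
    (h : Solvable S lt (six a b)) : ∃ c, S c ∧ lt a c ∧ lt c b := by
  by_contra hno
  push Not at hno
  have hne : a ≠ b := by
    rintro rfl
    exact hO.irrefl a ha hab
  let f : {a // S a} → Function.End ℕ := fun c =>
    if (c : ℕ) = a then sc else if (c : ℕ) = b then pd else 1
  have fa : ∀ c : {a // S a}, (c : ℕ) = a → f c = sc := fun c hc => if_pos hc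
  have fb : ∀ c : {a // S a}, (c : ℕ) = b → f c = pd := fun c hc =>
    (if_neg (by rw [hc]; exact hne.symm)).trans (if_pos hc)
  have fo : ∀ c : {a // S a}, (c : ℕ) ≠ a → (c : ℕ) ≠ b → f c = 1 := fun c h1 h2 =>
    (if_neg h1).trans (if_neg h2)
  -- letters commute unless they are `a` and `b`
  have hcomm : ∀ x z : {a // S a}, lt x z → ¬ ((x : ℕ) = a ∧ (z : ℕ) = b) → f z * f x = f x * f z := by
    intro x z hxz hn
    by_cases h1 : (x : ℕ) = a
    · by_cases h2 : (z : ℕ) = b
      · exact absurd ⟨h1, h2⟩ hn
      · by_cases h3 : (z : ℕ) = a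
        · rw [fa x h1, fa z h3]
        · rw [fo z h3 h2, one_mul, mul_one]
    · by_cases h2 : (x : ℕ) = b
      · by_cases h3 : (z : ℕ) = a
        · exfalso
          rw [h2, h3] at hxz
          exact hO.irrefl a ha (hO.trans a b a ha hb ha hab hxz)
        · by_cases h4 : (z : ℕ) = b
          · rw [fb x h2, fb z h4]
          · rw [fo z h3 h4, one_mul, mul_one]
      · rw [fo x h1 h2, one_mul, mul_one]
  have htr : ∀ x y z : {a // S a}, lt x y → lt y z → lt x z := fun x y z h1 h2 =>
    hO.trans x y z x.2 y.2 z.2 h1 h2
  have hrel : ∀ u w : FreeMonoid {a // S a}, Knuth S lt u w →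
      FreeMonoid.lift f u = FreeMonoid.lift f w := by
    intro u w huw
    induction huw with
    | one x y z h1 h2 =>
      simp only [map_mul, FreeMonoid.lift_eval_of]
      by_cases hh : (x : ℕ) = a ∧ (z : ℕ) = b
      · obtain ⟨hx, hz⟩ := hh
        have hy : (y : ℕ) = a := by
          rcases h1 with h1 | h1
          · rw [← h1, hx]
          · rw [hx] at h1
            rw [hz] at h2
            exact absurd h2 (hno y y.2 h1)
        rw [fa x hx, fb z hz, fa y hy]
        funext n
        rfl
      · have hxz : lt x z := by
          rcases h1 with h1 | h1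
          · rw [h1]; exact h2
          · exact htr x y z h1 h2
        rw [hcomm x z hxz hh]
    | two x y z h1 h2 =>
      simp only [map_mul, FreeMonoid.lift_eval_of]
      by_cases hh : (x : ℕ) = a ∧ (z : ℕ) = b
      · obtain ⟨hx, hz⟩ := hh
        have hy : (y : ℕ) = b := by
          rcases h2 with h2 | h2
          · rw [h2, hz]
          · rw [hx] at h1
            rw [hz] at h2
            exact absurd h2 (hno y y.2 h1)
        rw [fa x hx, fb z hz, fb y hy]
        funext n
        rfl
      · have hxz : lt x z := by
          rcases h2 with h2 | h2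
          · rw [← h2]; exact h1
          · exact htr x y z h1 h2
        rw [mul_assoc, mul_assoc, ← hcomm x z hxz hh]
  let φ : Plactic S lt →* Function.End ℕ := PresentedMonoid.lift f hrel
  have φa : φ (PresentedMonoid.of (Knuth S lt) ⟨a, ha⟩) = sc := fa _ rfl
  have φb : φ (PresentedMonoid.of (Knuth S lt) ⟨b, hb⟩) = pd := fb _ rfl
  obtain ⟨v, hv⟩ := h
  have hv' : ∀ e ∈ six a b, φ (value S lt v e.1) = φ (value S lt v e.2) := fun e he => by
    rw [hv e he]
  unfold six at hv'
  simp only [List.forall_mem_cons, value_inl, value_inr _ ha, value_inr _ hb, value_nil, mul_one,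
    map_mul, φa, φb] at hv'
  obtain ⟨e1, e2, -, e4, e5, e6, -⟩ := hv'
  exact no_function (φ (v 0)) e1 e2 e4 e5 e6

end Six

/-! ### The order -/

/-- The machine number `e` has stopped within time `s` on input `0`. -/
def stopped (e s : ℕ) : Bool := (evaln s (Denumerable.ofNat Code e) 0).isSome

/-- The machine number `e` stops exactly at time `s + 1` on input `0`. -/
def stops (e s : ℕ) : Bool := stopped e (s + 1) && !stopped e s

theorem stopped_mono {e s t : ℕ} (hst : s ≤ t) (h : stopped e s = true) : stopped e t = true := by
  unfold stopped at h ⊢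
  rw [Option.isSome_iff_exists] at h ⊢
  obtain ⟨x, hx⟩ := h
  exact ⟨x, evaln_mono hst hx⟩

theorem stops_unique {e s t : ℕ} (h1 : stops e s = true) (h2 : stops e t = true) : s = t := by
  unfold stops at h1 h2
  simp only [Bool.and_eq_true, Bool.not_eq_true'] at h1 h2
  rcases lt_trichotomy s t with h | h | h
  · exact absurd (stopped_mono h h1.1) (by rw [h2.2]; decide)
  · exact h
  · exact absurd (stopped_mono h h2.1) (by rw [h1.2]; decide)

theorem exists_stops_iff (e : ℕ) :
    (∃ s, stops e s = true) ↔ (eval (Denumerable.ofNat Code e) 0).Dom := by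
  constructor
  · rintro ⟨s, hs⟩
    unfold stops stopped at hs
    simp only [Bool.and_eq_true] at hs
    obtain ⟨x, hx⟩ := Option.isSome_iff_exists.1 hs.1
    exact Part.dom_iff_mem.2 ⟨x, evaln_sound hx⟩
  · intro h
    obtain ⟨x, hx⟩ := Part.dom_iff_mem.1 h
    obtain ⟨k, hk⟩ := evaln_complete.1 hx
    have hex : ∃ k, stopped e k = true := ⟨k, by
      unfold stopped
      exact Option.isSome_iff_exists.2 ⟨x, hk⟩⟩
    classical
    have h0 : stopped e 0 = false := by
      simp [stopped, evaln]
    rcases hm : Nat.find hex with - | m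
    · have := Nat.find_spec hex
      rw [hm, h0] at this
      exact absurd this (by decide)
    · refine ⟨m, ?_⟩
      unfold stops
      have h1 := Nat.find_spec hex
      have h2 := Nat.find_min hex (m := m) (by omega)
      rw [hm] at h1
      rw [h1]
      simp only [Bool.not_eq_true] at h2
      rw [h2]
      rfl

/-- The carrier of the order: `(e, 0)`, `(e, 1)`, and `(e, s + 2)` if `stops e s`. -/
def car (n : ℕ) : Prop := n.unpair.2 ≤ 1 ∨ stops n.unpair.1 (n.unpair.2 - 2) = true

/-- `(e, 0)` is the left, `(e, 1)` the right point of the block number `e`. -/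
def rank (k : ℕ) : ℕ := if k = 0 then 0 else if k = 1 then 2 else 1

/-- The order relation. -/
def less (m n : ℕ) : Prop :=
  m.unpair.1 < n.unpair.1 ∨ (m.unpair.1 = n.unpair.1 ∧ rank m.unpair.2 < rank n.unpair.2)

theorem rank_inj {e k l : ℕ} (hk : k ≤ 1 ∨ stops e (k - 2) = true)
    (hl : l ≤ 1 ∨ stops e (l - 2) = true) (h : rank k = rank l) : k = l := by
  unfold rank at h
  split_ifs at h with h1 h2 h3 h4 h5 h6 <;> try omega
  have a1 : stops e (k - 2) = true := hk.resolve_left (by omega)
  have a2 : stops e (l - 2) = true := hl.resolve_left (by omega)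
  have := stops_unique a1 a2
  omega

theorem primrec_stopped : Primrec fun p : ℕ × ℕ => stopped p.1 p.2 := by
  have h : Primrec fun p : ℕ × ℕ => evaln p.2 (Denumerable.ofNat Code p.1) 0 :=
    primrec_evaln.comp (Primrec.pair (Primrec.pair Primrec.snd
      ((Primrec.ofNat Code).comp Primrec.fst)) (Primrec.const 0))
  exact Primrec.option_isSome.comp h

theorem primrec_stops : Primrec fun p : ℕ × ℕ => stops p.1 p.2 := by
  have h1 : Primrec fun p : ℕ × ℕ => stopped p.1 (p.2 + 1) :=
    primrec_stopped.comp (Primrec.pair Primrec.fst (Primrec.succ.comp Primrec.snd))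
  exact Primrec.and.comp h1 (Primrec.not.comp primrec_stopped)

theorem computable_of_primrec {α : Type*} [Primcodable α] {p : α → Prop} (h : PrimrecPred p) :
    ComputablePred p := by
  obtain ⟨_, h⟩ := h
  exact ⟨_, h.to_comp⟩

theorem order : IsRecursiveOrder car less where
  carrier_decidable := by
    have h1 : PrimrecPred fun n : ℕ => n.unpair.2 ≤ 1 :=
      Primrec.nat_le.comp (Primrec.snd.comp Primrec.unpair) (Primrec.const 1)
    have h2 : PrimrecPred fun n : ℕ => stops n.unpair.1 (n.unpair.2 - 2) = true := by
      have : Primrec fun n : ℕ => stops n.unpair.1 (n.unpair.2 - 2) :=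
        primrec_stops.comp (Primrec.pair (Primrec.fst.comp Primrec.unpair)
          (Primrec.nat_sub.comp (Primrec.snd.comp Primrec.unpair) (Primrec.const 2)))
      exact Primrec.eq.comp this (Primrec.const true)
    exact computable_of_primrec (h1.or h2)
  lt_decidable := by
    have hr : Primrec rank := by
      unfold rank
      exact Primrec.ite (Primrec.eq.comp Primrec.id (Primrec.const 0)) (Primrec.const 0)
        (Primrec.ite (Primrec.eq.comp Primrec.id (Primrec.const 1)) (Primrec.const 2)
          (Primrec.const 1))
    have u1 : Primrec fun p : ℕ × ℕ => p.1.unpair.1 :=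
      Primrec.fst.comp (Primrec.unpair.comp Primrec.fst)
    have u2 : Primrec fun p : ℕ × ℕ => p.2.unpair.1 :=
      Primrec.fst.comp (Primrec.unpair.comp Primrec.snd)
    have w1 : Primrec fun p : ℕ × ℕ => rank p.1.unpair.2 :=
      hr.comp (Primrec.snd.comp (Primrec.unpair.comp Primrec.fst))
    have w2 : Primrec fun p : ℕ × ℕ => rank p.2.unpair.2 :=
      hr.comp (Primrec.snd.comp (Primrec.unpair.comp Primrec.snd))
    have h1 : PrimrecPred fun p : ℕ × ℕ => p.1.unpair.1 < p.2.unpair.1 := Primrec.nat_lt.comp u1 u2
    have h2 : PrimrecPred fun p : ℕ × ℕ => p.1.unpair.1 = p.2.unpair.1 := Primrec.eq.comp u1 u2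
    have h3 : PrimrecPred fun p : ℕ × ℕ => rank p.1.unpair.2 < rank p.2.unpair.2 :=
      Primrec.nat_lt.comp w1 w2
    exact computable_of_primrec (h1.or (h2.and h3))
  irrefl a _ h := by
    unfold less at h
    omega
  trans a b c _ _ _ h1 h2 := by
    unfold less at h1 h2 ⊢
    omega
  total a b ha hb hab := by
    unfold less
    by_contra hn
    push Not at hn
    obtain ⟨⟨h1, h2⟩, h3, h4⟩ := hn
    have he : a.unpair.1 = b.unpair.1 := by omega
    have hr : rank a.unpair.2 = rank b.unpair.2 := by
      have := h2 he
      have := h4 he.symm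
      omega
    apply hab
    have hk : a.unpair.2 = b.unpair.2 := by
      refine rank_inj (e := a.unpair.1) ha ?_ hr
      rw [he]
      exact hb
    rw [← Nat.pair_unpair a, ← Nat.pair_unpair b, he, hk]

theorem car_left (e : ℕ) : car (Nat.pair e 0) := by
  unfold car
  simp

theorem car_right (e : ℕ) : car (Nat.pair e 1) := by
  unfold car
  simp

theorem less_left_right (e : ℕ) : less (Nat.pair e 0) (Nat.pair e 1) := by
  unfold less rank
  simp

theorem between_iff (e : ℕ) :
    (∃ c, car c ∧ less (Nat.pair e 0) c ∧ less c (Nat.pair e 1)) ↔ ∃ s, stops e s = true := by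
  constructor
  · rintro ⟨c, hc, h1, h2⟩
    unfold less at h1 h2
    simp only [Nat.unpair_pair] at h1 h2
    have he : c.unpair.1 = e := by omega
    have h3 : rank 0 < rank c.unpair.2 := by
      rcases h1 with h1 | h1
      · omega
      · exact h1.2
    have h4 : rank c.unpair.2 < rank 1 := by
      rcases h2 with h2 | h2
      · omega
      · exact h2.2
    have hk : ¬ c.unpair.2 ≤ 1 := by
      intro hk
      have : c.unpair.2 = 0 ∨ c.unpair.2 = 1 := by omega
      rcases this with h | h
      · rw [h] at h3; omega
      · rw [h] at h4; omega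
    refine ⟨c.unpair.2 - 2, ?_⟩
    have := hc.resolve_left hk
    rwa [he] at this
  · rintro ⟨s, hs⟩
    refine ⟨Nat.pair e (s + 2), ?_, ?_, ?_⟩
    · unfold car
      rw [Nat.unpair_pair]
      right
      simpa using hs
    · unfold less rank
      simp
    · unfold less rank
      simp

/-- **The theorem.** There is a recursive total order `(S, lt)` such that no algorithm decides, given
a finite system of equations between words over variables and constants from `S`, whether it is
solvable in the plactic monoid on `(S, lt)`; systems of six equations in one unknown with two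
constants are sufficient. -/
theorem result : ∃ (S : ℕ → Prop) (lt : ℕ → ℕ → Prop), IsRecursiveOrder S lt ∧
    ¬ ∃ D : List (Word × Word) → Prop, ComputablePred D ∧
      ∀ sys : List (Word × Word), sys.length = 6 →
        (∀ e ∈ sys, Valid S e.1 ∧ Valid S e.2) →
        (∃ a b : ℕ, ∀ e ∈ sys, ∀ x, (x ∈ e.1 ∨ x ∈ e.2) → x = .inl 0 ∨ x = .inr a ∨ x = .inr b) →
        (D sys ↔ Solvable S lt sys) := by
  refine ⟨car, less, order, ?_⟩
  rintro ⟨D, hD, h⟩
  apply ComputablePred.halting_problem 0
  have hf : Primrec fun c : Code => six (Nat.pair (Encodable.encode c) 0)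
      (Nat.pair (Encodable.encode c) 1) := by
    have ha : Primrec fun c : Code => (Sum.inr (Nat.pair (Encodable.encode c) 0) : ℕ ⊕ ℕ) :=
      Primrec.sumInr.comp (Primrec₂.natPair.comp Primrec.encode (Primrec.const 0))
    have hb : Primrec fun c : Code => (Sum.inr (Nat.pair (Encodable.encode c) 1) : ℕ ⊕ ℕ) :=
      Primrec.sumInr.comp (Primrec₂.natPair.comp Primrec.encode (Primrec.const 1))
    have hx : Primrec fun _ : Code => (Sum.inl 0 : ℕ ⊕ ℕ) := Primrec.const _
    have three : ∀ {f g k : Code → ℕ ⊕ ℕ}, Primrec f → Primrec g → Primrec k →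
        Primrec fun c => [f c, g c, k c] := fun hf hg hk =>
      Primrec.list_cons.comp hf (Primrec.list_cons.comp hg
        (Primrec.list_cons.comp hk (Primrec.const [])))
    unfold six
    exact Primrec.list_cons.comp (Primrec.pair (three hx ha ha) (three ha hx ha))
      (Primrec.list_cons.comp (Primrec.pair (three hb ha hx) (three ha hb hx))
      (Primrec.list_cons.comp (Primrec.pair (three hb hx hx) (three hx hb hx))
      (Primrec.list_cons.comp (Primrec.pair (three hx ha hx) (three hx hx ha))
      (Primrec.list_cons.comp (Primrec.pair (three hx ha hb) (three hx hb ha))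
      (Primrec.list_cons.comp (Primrec.pair (three hb hx hb) (three hb hb hx))
      (Primrec.const []))))))
  refine ComputablePred.computable_of_manyOneReducible (q := D)
    ⟨fun c => six (Nat.pair (Encodable.encode c) 0) (Nat.pair (Encodable.encode c) 1), hf.to_comp,
      fun c => ?_⟩ hD
  set e := Encodable.encode c with he
  have hc : Denumerable.ofNat Code e = c := Denumerable.ofNat_encode c
  rw [h (six (Nat.pair e 0) (Nat.pair e 1)) rfl (six_valid (car_left e) (car_right e))
    ⟨Nat.pair e 0, Nat.pair e 1, ?_⟩]
  · change (eval c 0).Dom ↔ _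
    rw [← hc, ← exists_stops_iff, ← between_iff]
    constructor
    · rintro ⟨x, h1, h2, h3⟩
      exact six_of_between (car_left e) (car_right e) h1 h2 h3
    · exact between_of_six order (car_left e) (car_right e) (less_left_right e)
  · intro q hq x hx
    unfold six at hq
    simp only [List.mem_cons, List.not_mem_nil, or_false] at hq
    rcases hq with rfl | rfl | rfl | rfl | rfl | rfl <;>
    · simp only [List.mem_cons, List.not_mem_nil, or_false] at hx
      tauto

end Pool.Agent.Results.MP_a663df_lc.RecursiveOrder
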